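import Mathlib
import Pool.Agent.Helper697.RepDefs
import Pool.Agent.Y211.RC.Pack
import Pool.Agent.Y211.RC.DataA
import Pool.Agent.Y211.RC.DataB
import Pool.Agent.Y211.RC.DataC
import Pool.Agent.Y211.RC.DataD
import Pool.Agent.Y211.RC.DataE

/-!
Rep-cubes of every positive order.

`Rep.IsRepCube k P` says that the finite set `P` of unit squares of the integer grid is a
polyomino, folds to a cube, and is the disjoint union of `k` polyominoes each of which folds to
a cube (of its own edge length).
-/

namespace Pool.Agent.Results.MP_ea7ca7_co.RepCubesEveryOrder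

open Pool.Agent.Helper697.Rep Pool.Agent.Y211.RC

/-- For every integer `k ≥ 1` there is a rep-cube of order `k`. -/
theorem result : ∀ k : ℕ, 1 ≤ k → ∃ P : Finset (ℤ × ℤ), IsRepCube k P := by
  intro k hk
  by_cases h38 : 38 ≤ k
  · exact high k h38
  have h : k < 38 := by omega
  interval_cases k
  · exact one_rep
  · exact k2_rep 2 (by decide)
  · exact k3_rep 3 (by decide)
  · exact k4_rep 4 (by decide)
  · exact k5_rep 5 (by decide)
  · exact w3a_rep 6 (by decide)
  · exact k7_rep 7 (by decide)
  · exact k8_rep 8 (by decide)
  · exact w3a_rep 9 (by decide)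
  · exact k10_rep 10 (by decide)
  · exact d5_rep 11 (by decide)
  · exact k12_rep 12 (by decide)
  · exact k13_rep 13 (by decide)
  · exact d5_rep 14 (by decide)
  · exact k15_rep 15 (by decide)
  · exact k16_rep 16 (by decide)
  · exact d5_rep 17 (by decide)
  · exact low_one 6 0 (by omega) (by omega)
  · exact low_one 3 1 (by omega) (by omega)
  · exact d6b_rep 20 (by decide)
  · exact low_one 5 0 (by omega) (by omega)
  · exact low_one 2 1 (by omega) (by omega)
  · exact f8_rep 23 (by decide)
  · exact low_one 4 0 (by omega) (by omega)
  · exact low_one 1 1 (by omega) (by omega)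
  · exact f8_rep 26 (by decide)
  · exact low_one 3 0 (by omega) (by omega)
  · exact low_one 0 1 (by omega) (by omega)
  · exact f8_rep 29 (by decide)
  · exact low_one 2 0 (by omega) (by omega)
  · exact f1_rep 31 (by decide)
  · exact f3b_rep 32 (by decide)
  · exact low_one 1 0 (by omega) (by omega)
  · exact f1_rep 34 (by decide)
  · exact f3b_rep 35 (by decide)
  · exact low_one 0 0 (by omega) (by omega)
  · exact f4_rep 37 (by decide)

end Pool.Agent.Results.MP_ea7ca7_co.RepCubesEveryOrder
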